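import Pool.Agent.R344.LS.AF
import Pool.Agent.TH930.GH.MollerB

/-!
The masses of the levels over the cycles of the `3x+1` map which are met from `[-y, y]`: rate of convergence.
-/

set_option autoImplicit false

namespace Pool.Agent.N219.MB

open Finset Filter Topology
open Pool.Agent.H499R2.LT
open Pool.Agent.H499R2.ND (Td Dn cnt cnt_eq dens_side Inv HD)
open Pool.Agent.R344.LS

theorem Tm_eq : Pool.Agent.H319R3.GC.Tm 2 (Pool.Agent.TH930.GH.mq 3) (fun i => if i = 0 then 0 else -1) =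
    Td 1 := by
  funext n
  unfold Pool.Agent.H319R3.GC.Tm Td
  rcases Int.emod_two_eq_zero_or_one n with h | h
  · have h1 : (n % ((2 : ℕ) : ℤ)).toNat = 0 := by
      rw [Nat.cast_ofNat, h]; rfl
    rw [h1]
    simp [Pool.Agent.TH930.GH.mq, h]
  · have h1 : (n % ((2 : ℕ) : ℤ)).toNat = 1 := by
      rw [Nat.cast_ofNat, h]; rfl
    rw [h1]
    simp [Pool.Agent.TH930.GH.mq, h]

/-- few integers have a trajectory which avoids `[-y, y]` -/
theorem avoid : ∃ c : ℝ, 1 - Real.binEntropy (Real.log 2 / Real.log 3) / Real.log 2 < c ∧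
    ∃ C : ℝ, 0 < C ∧ ∀ X y : ℝ, 1 ≤ X → 1 ≤ y →
      ({x : ℤ | |(x : ℝ)| ≤ X ∧ ∀ k : ℕ, y < |(((Td 1)^[k] x : ℤ) : ℝ)|}.ncard : ℝ) ≤ C * X / y ^ c := by
  obtain ⟨c, hc, h⟩ := Pool.Agent.TH930.GH.moller_power (d := 2) (m := 3) le_rfl (by norm_num) (by norm_num)
    (by norm_num)
  have hq : Pool.Agent.TH930.GH.hq 2 3 = Real.binEntropy (Real.log 2 / Real.log 3) / Real.log 2 := by
    unfold Pool.Agent.TH930.GH.hq Pool.Agent.TH930.GH.kq
    rw [Real.qaryEntropy_two]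
    push_cast
    rfl
  rw [hq] at hc
  refine ⟨c, hc, ?_⟩
  obtain ⟨C, hC, hb⟩ := h (fun i => if i = 0 then 0 else -1) (by
    intro i hi
    interval_cases i
    · simp
    · simp only [Pool.Agent.TH930.GH.mq]
      norm_num)
  rw [Tm_eq] at hb
  exact ⟨C, hC, hb⟩

theorem expo_pos : 0 < 1 - Real.binEntropy (Real.log 2 / Real.log 3) / Real.log 2 := by
  have h2 : 0 < Real.log 2 := Real.log_pos (by norm_num)
  have h3 : 0 < Real.log 3 := Real.log_pos (by norm_num)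
  have hne : Real.log 2 / Real.log 3 ≠ 2⁻¹ := by
    intro h
    rw [div_eq_iff h3.ne'] at h
    have h4 : Real.log 4 = 2 * Real.log 2 := by
      rw [show (4 : ℝ) = 2 ^ 2 by norm_num, Real.log_pow]; norm_num
    have h5 : Real.log 3 < Real.log 4 := Real.log_lt_log (by norm_num) (by norm_num)
    linarith
  have h4 := Real.binEntropy_lt_log_two.2 hne
  rw [sub_pos, div_lt_one h2]
  exact h4

theorem Rs_iter {y : ℕ} {x : ℤ} (h : x ∈ Rs y) (k : ℕ) : (Td 1)^[k] x ∈ Rs y := by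
  induction k with
  | zero => exact h
  | succ k ih =>
    rw [Function.iterate_succ_apply']
    exact (Rs_inv y _).1 ih

variable {c C : ℝ}

theorem dens_pow (hC : ∀ X y : ℝ, 1 ≤ X → 1 ≤ y →
      ({x : ℤ | |(x : ℝ)| ≤ X ∧ ∀ k : ℕ, y < |(((Td 1)^[k] x : ℤ) : ℝ)|}.ncard : ℝ) ≤ C * X / y ^ c)
    {s : ℤ} (hs : s = 1 ∨ s = -1) {y : ℕ} (hy : 1 ≤ y) {r : ℝ}
    (hr : Dn (fun n : ℕ => s * (n : ℤ) ∈ Rs y) r) : r ≤ C / (y : ℝ) ^ c := by
  apply le_of_tendsto hr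
  filter_upwards [eventually_ge_atTop 1] with N hN
  have hN0 : (0 : ℝ) < N := by exact_mod_cast hN
  rw [div_le_iff₀ hN0]
  have h1 := hC N y (by exact_mod_cast hN) (by exact_mod_cast hy)
  have h2 : cnt (fun n : ℕ => s * (n : ℤ) ∈ Rs y) N ≤
      ({x : ℤ | |(x : ℝ)| ≤ N ∧ ∀ k : ℕ, (y : ℝ) < |(((Td 1)^[k] x : ℤ) : ℝ)|}.ncard : ℝ) := by
    unfold cnt
    have hfin : {x : ℤ | |(x : ℝ)| ≤ (N : ℝ) ∧ ∀ k : ℕ, (y : ℝ) < |(((Td 1)^[k] x : ℤ) : ℝ)|}.Finite := by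
      apply (Set.finite_Icc (-(N : ℤ)) N).subset
      rintro x ⟨hx, -⟩
      rw [abs_le] at hx
      exact ⟨by exact_mod_cast hx.1, by exact_mod_cast hx.2⟩
    apply Nat.cast_le.2
    apply Set.ncard_le_ncard_of_injOn (fun n : ℕ => s * (n : ℤ)) _ _ hfin
    · rintro n ⟨hn1, hn2, hn3⟩
      refine ⟨?_, fun k => Rs_large (Rs_iter hn3 k)⟩
      have h3 : |((s * (n : ℤ) : ℤ) : ℝ)| = n := by
        push_cast
        rw [abs_mul, Nat.abs_cast]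
        rcases hs with rfl | rfl <;> simp
      rw [h3]
      exact_mod_cast hn2
    · intro a _ b _ hab
      simp only at hab
      rcases hs with rfl | rfl
      · omega
      · omega
  calc cnt (fun n : ℕ => s * (n : ℤ) ∈ Rs y) N ≤ _ := h2
    _ ≤ C * N / (y : ℝ) ^ c := h1
    _ = C / (y : ℝ) ^ c * N := by ring

/-- the distance of the limit of the masses of the levels over the cycles met from `[-y, y]` to its limit -/
theorem gap (hC : ∀ X y : ℝ, 1 ≤ X → 1 ≤ y →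
      ({x : ℤ | |(x : ℝ)| ≤ X ∧ ∀ k : ℕ, y < |(((Td 1)^[k] x : ℤ) : ℝ)|}.ncard : ℝ) ≤ C * X / y ^ c)
    {w₁ w₂ : ℝ} (h₁ : HD 1 {x | Dv x} w₁) (h₂ : HD (-1) {x | Dv x} w₂) {y : ℕ} (hy : 1 ≤ y) {l : ℝ}
    (hl : Tendsto (fun k : ℕ => ∑' x : LZ 1 (Zy_fin y).toFinset k, (1 : ℝ) / |((x : ℤ) : ℝ)|) atTop (𝓝 l)) :
    0 ≤ Real.log (4 / 3) * (1 - (w₁ + w₂) / 2) - l ∧
    Real.log (4 / 3) * (1 - (w₁ + w₂) / 2) - l ≤ Real.log (4 / 3) * C / (y : ℝ) ^ c := by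
  obtain ⟨δ₁, δ₂, c1, c2, -, c4, -⟩ := both_line (d := 1) odd_one not_dvd_one (Zy_fin y).toFinset
  have hl' := tendsto_nhds_unique hl c4
  have key : ∀ s : ℤ, s = 1 ∨ s = -1 → ∀ w δ : ℝ, HD s {x | Dv x} w →
      Dn (fun n : ℕ => ∃ k : ℕ, (Td 1)^[k] (s * (n : ℤ)) ∈ (Zy_fin y).toFinset) δ →
      ∃ r : ℝ, 0 ≤ r ∧ r ≤ C / (y : ℝ) ^ c ∧ r + w + δ = 1 := by
    intro s hs w δ hw hδ
    obtain ⟨r, hr0, _, hr⟩ := dens_side odd_one isCoprime_one_left hs (Rs_inv y)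
    have g1 : Dn (fun n : ℕ => s * (n : ℤ) ∈ Rs y) r := dn_side hr
    have g2 : Dn (fun n : ℕ => Dv (s * (n : ℤ))) w := by
      have := dn_side hw
      simpa only [Set.mem_ofPred_eq] using this
    have g3 : Dn (fun n : ℕ => s * (n : ℤ) ∈ Re y) δ := by
      have e : (fun n : ℕ => s * (n : ℤ) ∈ Re y) =
          fun n : ℕ => ∃ k : ℕ, (Td 1)^[k] (s * (n : ℤ)) ∈ (Zy_fin y).toFinset := by
        funext n
        simp only [Re, Set.mem_ofPred_eq, Set.Finite.mem_toFinset]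
      rw [e]
      exact hδ
    exact ⟨r, hr0, dens_pow hC hs hy g1, three_sum hs g1 g2 g3⟩
  obtain ⟨r₁, a1, a2, a3⟩ := key 1 (Or.inl rfl) w₁ δ₁ h₁ c1
  obtain ⟨r₂, b1, b2, b3⟩ := key (-1) (Or.inr rfl) w₂ δ₂ h₂ c2
  have hlog := log43_pos
  have e : Real.log (4 / 3) * (1 - (w₁ + w₂) / 2) - l = Real.log (4 / 3) / 2 * (r₁ + r₂) := by
    have d1 : δ₁ = 1 - w₁ - r₁ := by linarith
    have d2 : δ₂ = 1 - w₂ - r₂ := by linarith
    rw [hl', d1, d2]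
    ring
  rw [e]
  refine ⟨by positivity, ?_⟩
  calc Real.log (4 / 3) / 2 * (r₁ + r₂) ≤ Real.log (4 / 3) / 2 * (C / (y : ℝ) ^ c + C / (y : ℝ) ^ c) := by
        apply mul_le_mul_of_nonneg_left (add_le_add a2 b2) (by positivity)
    _ = Real.log (4 / 3) * C / (y : ℝ) ^ c := by ring

end Pool.Agent.N219.MB
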